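import Mathlib

namespace Pool.Agent.Lib.MP_721660_al

/-- Extension of finitely generated by finitely generated. -/
theorem fg_of_ker {G B : Type} [Group G] [Group B] (f : G →* B) (hf : Function.Surjective f)
    (hB : Group.FG B) (hk : f.ker.FG) : Group.FG G := by
  obtain ⟨S, hS, hSf⟩ := Group.fg_iff.1 hB
  obtain ⟨T, hT, hTf⟩ := (Subgroup.fg_iff _).1 hk
  choose σ hσ using hf
  refine Group.fg_iff.2 ⟨σ '' S ∪ T, ?_, (hSf.image _).union hTf⟩
  rw [eq_top_iff]
  intro x _
  have h1 : ∀ b : B, ∃ y ∈ Subgroup.closure (σ '' S ∪ T), f y = b := by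
    intro b
    have hb : b ∈ Subgroup.closure S := by rw [hS]; trivial
    have : Subgroup.closure S ≤ (Subgroup.closure (σ '' S ∪ T)).map f := by
      rw [Subgroup.closure_le]
      intro s hs
      exact ⟨σ s, Subgroup.subset_closure (Or.inl ⟨s, hs, rfl⟩), hσ s⟩
    exact this hb
  obtain ⟨y, hy, hxy⟩ := h1 (f x)
  have h2 : y⁻¹ * x ∈ f.ker := by simp [MonoidHom.mem_ker, hxy]
  have h3 : y⁻¹ * x ∈ Subgroup.closure (σ '' S ∪ T) := by
    rw [← hT] at h2
    exact Subgroup.closure_mono Set.subset_union_right h2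
  simpa using Subgroup.mul_mem _ hy h3

/-- A soluble group with a subgroup that is not finitely generated has a subgroup whose
abelianisation is not finitely generated. -/
theorem exists_ab {Q : Type} [Group Q] (hs : Group.IsSolvable Q) (H : Subgroup Q) (hH : ¬ H.FG) :
    ∃ K : Subgroup Q, ¬ Group.FG (Abelianization K) := by
  by_contra hc
  push Not at hc
  obtain ⟨n, hn⟩ := hs.solvable
  have h1 : ∀ n : ℕ, ∀ K : Subgroup Q, (fun L : Subgroup Q => ⁅L, L⁆)^[n] K = ⊥ → K.FG := by
    intro n
    induction n with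
    | zero => intro K hK; rw [Function.iterate_zero_apply] at hK; rw [hK]; exact Subgroup.FG.bot
    | succ n ih =>
      intro K hK
      rw [Function.iterate_succ_apply] at hK
      have h2 := ih _ hK
      rw [← Group.fg_iff_subgroup_fg]
      refine fg_of_ker (Abelianization.of : K →* Abelianization K)
        (fun b => Quotient.inductionOn' b fun x => ⟨x, rfl⟩) (hc K) ?_
      rw [Abelianization.ker_of]
      rw [← Subgroup.map_subtype_commutator, ← Group.fg_iff_subgroup_fg] at h2
      rw [← Group.fg_iff_subgroup_fg]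
      exact Group.fg_of_surjective
        (f := ((commutator K).equivMapOfInjective K.subtype K.subtype_injective).symm.toMonoidHom)
        (MulEquiv.surjective _)
  have h2 : ∀ n : ℕ, (fun L : Subgroup Q => ⁅L, L⁆)^[n] H ≤ derivedSeries Q n := by
    intro n
    induction n with
    | zero => simp
    | succ n ih =>
      rw [Function.iterate_succ_apply', derivedSeries_succ]
      exact Subgroup.commutator_mono ih ih
  exact hH (h1 n H (le_bot_iff.1 (hn ▸ h2 n)))

/-- An abelian group that is not finitely generated has an infinite torsion quotient. -/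
theorem exists_torsion_quot {M : Type} [AddCommGroup M] (h : ¬ Module.Finite ℤ M) :
    ∃ L : Submodule ℤ M, Infinite (M ⧸ L) ∧ ∀ x : M, ∃ a : ℤ, a ≠ 0 ∧ a • x ∈ L := by
  classical
  obtain ⟨s, hs, hm⟩ := exists_maximal_linearIndepOn ℤ (id : M → M)
  refine ⟨Submodule.span ℤ ((fun x => (2 : ℤ) • x) '' s), ?_, ?_⟩
  · by_contra hfin
    rw [not_infinite_iff_finite] at hfin
    have hinj : Set.InjOn
        (fun x : M => (Submodule.span ℤ ((fun x => (2 : ℤ) • x) '' s)).mkQ x) s := by
      intro x hx y hy hxy
      by_contra hne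
      have h1 : x - y ∈ Submodule.span ℤ ((fun x => (2 : ℤ) • x) '' s) :=
        (Submodule.Quotient.eq _).1 hxy
      rw [Finsupp.mem_span_image_iff_linearCombination] at h1
      obtain ⟨l, hl, hl2⟩ := h1
      have h2 := (linearIndepOn_iff (R := ℤ) (v := (id : M → M)) (s := s)).1 hs
        ((2 : ℤ) • l - (Finsupp.single x 1 - Finsupp.single y 1))
        (Submodule.sub_mem _ (Submodule.smul_mem _ _ hl) (Submodule.sub_mem _
          (Finsupp.single_mem_supported ℤ 1 hx) (Finsupp.single_mem_supported ℤ 1 hy))) (by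
          rw [map_sub, map_sub, Finsupp.linearCombination_single,
            Finsupp.linearCombination_single, map_smul]
          have : Finsupp.linearCombination ℤ (fun x : M => (2 : ℤ) • x) l =
              (2 : ℤ) • Finsupp.linearCombination ℤ (id : M → M) l := by
            simp only [Finsupp.linearCombination_apply, Finsupp.sum, Finset.smul_sum, id]
            exact Finset.sum_congr rfl fun i _ => smul_comm _ _ _
          rw [← this, hl2]; simp)
      have h3 := congrArg (fun c : M →₀ ℤ => c x) h2
      have hne' : y ≠ x := fun e => hne e.symm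
      simp [hne'] at h3
      omega
    have hsf : s.Finite := Set.Finite.of_finite_image (Set.toFinite _) hinj
    apply h
    have : Module.Finite ℤ (Submodule.span ℤ ((fun x => (2 : ℤ) • x) '' s)) :=
      Module.Finite.span_of_finite ℤ (hsf.image _)
    have : Module.Finite ℤ (M ⧸ Submodule.span ℤ ((fun x => (2 : ℤ) • x) '' s)) :=
      Module.Finite.of_finite
    exact Module.Finite.of_submodule_quotient (Submodule.span ℤ ((fun x => (2 : ℤ) • x) '' s))
  · intro x
    by_cases hx : x ∈ s
    · exact ⟨2, by norm_num, Submodule.subset_span ⟨x, hx, rfl⟩⟩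
    · obtain ⟨a, ha, hax⟩ := hm x hx
      refine ⟨2 * a, by positivity, ?_⟩
      have : Submodule.span ℤ ((fun x => (2 : ℤ) • x) '' s) =
          (Submodule.span ℤ (id '' s)).map (LinearMap.lsmul ℤ M 2) := by
        rw [Submodule.map_span]; simp
      rw [this, mul_smul]
      exact ⟨a • x, hax, rfl⟩

/-- An infinite abelian torsion group has a strictly ascending chain of finite subgroups. -/
theorem exists_chain {C : Type} [CommGroup C] [Infinite C] (ht : IsMulTorsion C) :
    ∃ D : ℕ → Subgroup C, StrictMono D ∧ ∀ n, Finite (D n) := by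
  have step : ∀ D : {D : Subgroup C // Finite D}, ∃ E : {D : Subgroup C // Finite D},
      D.1 < E.1 := by
    rintro ⟨D, hD⟩
    have hDf : (D : Set C).Finite := Set.toFinite _
    obtain ⟨b, hb⟩ := hDf.exists_notMem
    have hfg : (D ⊔ Subgroup.closure {b}).FG :=
      Subgroup.FG.sup ((Group.fg_iff_subgroup_fg D).1 inferInstance)
        ((Subgroup.fg_iff _).2 ⟨{b}, rfl, Set.finite_singleton b⟩)
    have := (Group.fg_iff_subgroup_fg _).2 hfg
    refine ⟨⟨D ⊔ Subgroup.closure {b}, CommGroup.finite_of_fg_isMulTorsion _ (ht.subgroup _)⟩,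
      lt_of_le_of_ne le_sup_left fun e => hb ?_⟩
    have : b ∈ D ⊔ Subgroup.closure {b} :=
      Subgroup.mem_sup_right (Subgroup.subset_closure rfl)
    have e' : D = D ⊔ Subgroup.closure {b} := e
    rw [← e'] at this
    exact this
  choose F hF using step
  refine ⟨fun n => (F^[n] ⟨⊥, inferInstance⟩).1, strictMono_nat_of_lt_succ fun n => ?_,
    fun n => (F^[n] ⟨⊥, inferInstance⟩).2⟩
  simp only [Function.iterate_succ_apply']
  exact hF _

/-- The chain of subgroups of finite index over a fixed subgroup. -/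
theorem exists_comm_chain {Q B : Type} [Group Q] [CommGroup B] (K : Subgroup Q) (π : K →* B)
    (hπ : Function.Surjective π) (hK : ¬ Group.FG B) :
    ∃ (L : Subgroup Q) (H : ℕ → Subgroup Q), StrictMono H ∧ (∀ n, L ≤ H n) ∧
      ∀ n, ((fun x : Q => (x : Q ⧸ L)) '' (H n)).Finite := by
  have h1 : ¬ Module.Finite ℤ (Additive B) := by
    intro h
    exact hK (GroupFG.iff_add_fg.2 (Module.Finite.iff_addGroup_fg.1 h))
  obtain ⟨N, hN, hT⟩ := exists_torsion_quot h1
  let ρ : K →* Multiplicative (Additive B ⧸ N) :=
    (AddMonoidHom.toMultiplicativeRight N.mkQ.toAddMonoidHom).comp π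
  have hρ : Function.Surjective ρ := by
    intro c
    obtain ⟨b, hb⟩ := N.mkQ_surjective (Multiplicative.toAdd c)
    obtain ⟨x, hx⟩ := hπ (Additive.toMul b)
    refine ⟨x, ?_⟩
    simp only [ρ, MonoidHom.comp_apply, hx]
    exact congrArg Multiplicative.ofAdd hb
  have ht : IsMulTorsion (Multiplicative (Additive B ⧸ N)) := by
    intro c
    obtain ⟨b, hb⟩ := N.mkQ_surjective (Multiplicative.toAdd c)
    obtain ⟨a, ha, hab⟩ := hT b
    rw [isOfFinOrder_iff_zpow_eq_one]
    refine ⟨a, ha, ?_⟩
    apply Multiplicative.toAdd.injective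
    rw [toAdd_zpow, ← hb, ← map_zsmul, toAdd_one]
    exact (Submodule.Quotient.mk_eq_zero _).2 hab
  have : Infinite (Multiplicative (Additive B ⧸ N)) := hN
  obtain ⟨D, hD, hDf⟩ := exists_chain ht
  refine ⟨ρ.ker.map K.subtype, fun n => ((D n).comap ρ).map K.subtype, ?_, ?_, ?_⟩
  · intro a b hab
    have h2 : (D a).comap ρ < (D b).comap ρ :=
      (Subgroup.comap_lt_comap_of_surjective hρ).2 (hD hab)
    exact (Subgroup.map_lt_map_iff_of_injective K.subtype_injective).2 h2
  · intro n
    exact Subgroup.map_mono fun x hx => by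
      rw [Subgroup.mem_comap, MonoidHom.mem_ker.1 hx]; exact Subgroup.one_mem _
  · intro n
    choose σ hσ using hρ
    have := hDf n
    refine (Set.finite_range fun d : D n => ((σ d : K) : Q ⧸ ρ.ker.map K.subtype)).subset ?_
    rintro _ ⟨_, ⟨x, hx, rfl⟩, rfl⟩
    refine ⟨⟨ρ x, hx⟩, ?_⟩
    refine QuotientGroup.eq.2 ⟨(σ (ρ x))⁻¹ * x, ?_, rfl⟩
    simp [MonoidHom.mem_ker, hσ]

/-- The permutation action of `Q` on finitely supported functions. -/
noncomputable def act (Q X R : Type) [Group Q] [MulAction Q X] [AddCommGroup R] :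
    Q →* MulAut (Multiplicative (X →₀ R)) where
  toFun g := AddEquiv.toMultiplicative (Finsupp.domCongr (MulAction.toPerm g))
  map_one' := by
    ext a x
    simp
  map_mul' g h := by
    ext a x
    simp [mul_smul]

theorem act_apply {Q X R : Type} [Group Q] [MulAction Q X] [AddCommGroup R] (g : Q)
    (a : Multiplicative (X →₀ R)) (x : X) :
    Multiplicative.toAdd (act Q X R g a) x = Multiplicative.toAdd a (g⁻¹ • x) := by
  simp [act]

theorem comm_iff {N Q : Type} [CommGroup N] [Group Q] {φ : Q →* MulAut N} (y : N ⋊[φ] Q) (b : N) :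
    y * SemidirectProduct.inl b = SemidirectProduct.inl b * y ↔ φ y.right b = b := by
  rw [SemidirectProduct.ext_iff]
  simp only [SemidirectProduct.mul_left, SemidirectProduct.left_inl, SemidirectProduct.right_inl,
    map_one, MulAut.one_apply, SemidirectProduct.mul_right, mul_one, one_mul, and_true]
  rw [mul_comm b]
  exact mul_right_inj _

theorem main {Q : Type} [Group Q] (hQ : Group.FG Q) (L : Subgroup Q) (H : ℕ → Subgroup Q)
    (hH : StrictMono H) (hL : ∀ n, L ≤ H n)
    (hf : ∀ n, ((fun x : Q => (x : Q ⧸ L)) '' (H n)).Finite) (m : ℕ) (hm : m ≠ 1) :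
    ∃ (G : Type) (_ : Group G) (f : G →* Q), Group.FG G ∧ Function.Surjective f ∧
      (∀ x ∈ f.ker, ∀ y ∈ f.ker, x * y = y * x) ∧ (∀ x ∈ f.ker, x ^ m = 1) ∧
      ∃ g : ℕ → G, StrictMono fun n => Subgroup.centralizer ({g n} : Set G) := by
  classical
  have : Nontrivial (ZMod m) := ZMod.nontrivial_iff.2 hm
  let G := Multiplicative ((Q ⧸ L) →₀ ZMod m) ⋊[act Q (Q ⧸ L) (ZMod m)] Q
  refine ⟨G, inferInstance, SemidirectProduct.rightHom, ?_,
    SemidirectProduct.rightHom_surjective, ?_, ?_, ?_⟩
  · obtain ⟨S, hS, hSf⟩ := Group.fg_iff.1 hQ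
    let e : G := SemidirectProduct.inl
      (Multiplicative.ofAdd (Finsupp.single ((1 : Q) : Q ⧸ L) (1 : ZMod m)))
    refine Group.fg_iff.2 ⟨insert e (SemidirectProduct.inr '' S), ?_, (hSf.image _).insert _⟩
    have h1 : ∀ q : Q, (SemidirectProduct.inr q : G) ∈
        Subgroup.closure (insert e (SemidirectProduct.inr '' S)) := by
      intro q
      have hq : q ∈ Subgroup.closure S := by rw [hS]; trivial
      have : (Subgroup.closure S).map (SemidirectProduct.inr : Q →* G) ≤
          Subgroup.closure (insert e (SemidirectProduct.inr '' S)) := by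
        rw [MonoidHom.map_closure]
        exact Subgroup.closure_mono (Set.subset_insert _ _)
      exact this ⟨q, hq, rfl⟩
    have h2 : ∀ a : (Q ⧸ L) →₀ ZMod m, (SemidirectProduct.inl (Multiplicative.ofAdd a) : G) ∈
        Subgroup.closure (insert e (SemidirectProduct.inr '' S)) := by
      intro a
      induction a using Finsupp.induction_linear with
      | zero => rw [ofAdd_zero, map_one]; exact Subgroup.one_mem _
      | add a b ha hb => rw [ofAdd_add, map_mul]; exact Subgroup.mul_mem _ ha hb
      | single x r =>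
        obtain ⟨q, rfl⟩ := QuotientGroup.mk_surjective x
        obtain ⟨k, rfl⟩ := ZMod.intCast_surjective r
        have h3 : Multiplicative.ofAdd (Finsupp.single (q : Q ⧸ L) ((k : ℤ) : ZMod m)) =
            (act Q (Q ⧸ L) (ZMod m) q (Multiplicative.ofAdd
              (Finsupp.single ((1 : Q) : Q ⧸ L) (1 : ZMod m)))) ^ k := by
          apply Multiplicative.toAdd.injective
          ext y
          rw [toAdd_zpow, Finsupp.smul_apply, act_apply]
          have h4 : ((1 : Q) : Q ⧸ L) = q⁻¹ • y ↔ (q : Q ⧸ L) = y := by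
            rw [eq_inv_smul_iff]; simp
          simp only [toAdd_ofAdd, Finsupp.single_apply, h4]
          split_ifs <;> simp
        rw [h3, map_zpow, SemidirectProduct.inl_aut]
        exact Subgroup.zpow_mem _ (Subgroup.mul_mem _ (Subgroup.mul_mem _ (h1 q)
          (Subgroup.subset_closure (Set.mem_insert _ _))) (h1 _)) k
    rw [eq_top_iff]
    intro x _
    rw [← SemidirectProduct.inl_left_mul_inr_right x]
    exact Subgroup.mul_mem _ (h2 _) (h1 _)
  · rw [← SemidirectProduct.range_inl_eq_ker_rightHom]
    rintro _ ⟨a, rfl⟩ _ ⟨b, rfl⟩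
    rw [← map_mul, ← map_mul, mul_comm]
  · rw [← SemidirectProduct.range_inl_eq_ker_rightHom]
    rintro _ ⟨a, rfl⟩
    rw [← map_pow]
    have : a ^ m = 1 := by
      apply Multiplicative.toAdd.injective
      ext y
      simp
    rw [this, map_one]
  · let a : ℕ → (Q ⧸ L) →₀ ZMod m := fun n =>
      Finsupp.indicator (hf n).toFinset fun _ _ => 1
    have ha : ∀ n (q : Q), a n (q : Q ⧸ L) = if q ∈ H n then 1 else 0 := by
      intro n q
      have h1 : (q : Q ⧸ L) ∈ (hf n).toFinset ↔ q ∈ H n := by
        rw [Set.Finite.mem_toFinset]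
        constructor
        · rintro ⟨x, hx, hxq⟩
          have h2 := hL n (QuotientGroup.eq.1 hxq)
          simpa using Subgroup.mul_mem _ hx h2
        · intro hq; exact ⟨q, hq, rfl⟩
      simp only [a, Finsupp.indicator_apply, h1]
      split_ifs <;> rfl
    have hc : ∀ n, Subgroup.centralizer
        ({SemidirectProduct.inl (Multiplicative.ofAdd (a n))} : Set G) =
        (H n).comap SemidirectProduct.rightHom := by
      intro n
      ext y
      rw [Subgroup.mem_centralizer_singleton_iff, Subgroup.mem_comap]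
      have h1 : y * SemidirectProduct.inl (Multiplicative.ofAdd (a n)) =
          SemidirectProduct.inl (Multiplicative.ofAdd (a n)) * y ↔
          act Q (Q ⧸ L) (ZMod m) y.right (Multiplicative.ofAdd (a n)) =
            Multiplicative.ofAdd (a n) := comm_iff y _
      rw [h1]
      change _ ↔ y.right ∈ H n
      constructor
      · intro h
        have h2 := congrArg (fun b : Multiplicative ((Q ⧸ L) →₀ ZMod m) =>
          Multiplicative.toAdd b (y.right : Q ⧸ L)) h
        simp only [act_apply, toAdd_ofAdd] at h2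
        rw [show y.right⁻¹ • (y.right : Q ⧸ L) = ((1 : Q) : Q ⧸ L) by simp, ha, ha,
          if_pos (Subgroup.one_mem _)] at h2
        by_contra hy
        rw [if_neg hy] at h2
        exact one_ne_zero h2
      · intro h
        apply Multiplicative.toAdd.injective
        ext x
        obtain ⟨q, rfl⟩ := QuotientGroup.mk_surjective x
        rw [act_apply, toAdd_ofAdd,
          show y.right⁻¹ • (q : Q ⧸ L) = ((y.right⁻¹ * q : Q) : Q ⧸ L) by simp, ha, ha]
        simp only [Subgroup.mul_mem_cancel_left _ (Subgroup.inv_mem _ h)]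
    refine ⟨fun n => SemidirectProduct.inl (Multiplicative.ofAdd (a n)), fun i j hij => ?_⟩
    simp only [hc]
    exact (Subgroup.comap_lt_comap_of_surjective SemidirectProduct.rightHom_surjective).2 (hH hij)

/-- A soluble section that is not finitely generated gives the chain. -/
theorem chain_of_section {Q S : Type} [Group Q] [Group S] (K : Subgroup Q) (ρ : K →* S)
    (hρ : Function.Surjective ρ) (hs : Group.IsSolvable S) (hS : ¬ Group.FG S) :
    ∃ (L : Subgroup Q) (H : ℕ → Subgroup Q), StrictMono H ∧ (∀ n, L ≤ H n) ∧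
      ∀ n, ((fun x : Q => (x : Q ⧸ L)) '' (H n)).Finite := by
  obtain ⟨K', hK'⟩ := exists_ab hs ⊤ fun h => hS (Group.fg_def.2 h)
  refine exists_comm_chain ((K'.comap ρ).map K.subtype)
    ((Abelianization.of.comp (ρ.subgroupComap K')).comp
      ((K'.comap ρ).equivMapOfInjective K.subtype K.subtype_injective).symm.toMonoidHom) ?_ hK'
  have h1 : Function.Surjective (Abelianization.of : K' →* Abelianization K') :=
    fun b => Quotient.inductionOn' b fun x => ⟨x, rfl⟩
  exact (h1.comp (ρ.subgroupComap_surjective_of_surjective K' hρ)).comp (MulEquiv.surjective _)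

end Pool.Agent.Lib.MP_721660_al
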