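import Mathlib

set_option autoImplicit false

namespace Pool.Agent.Lib.MP_721660_al.Cover

open Set TopologicalSpace

variable {C A : Type*} [Group C] [AddCommGroup A]

/-- elements of `C` that move `b` into `K`. -/
def Z (σ : C →* AddMonoid.End A) (K : AddSubgroup A) (b : A) : Set C := {x | σ x b ∈ K}

/-- the topology in which all `Z b` are closed. -/
@[reducible] def top (σ : C →* AddMonoid.End A) (K : AddSubgroup A) : TopologicalSpace C :=
  generateFrom {U | ∃ b, U = (Z σ K b)ᶜ}

theorem closed_Z (σ : C →* AddMonoid.End A) (K : AddSubgroup A) (b : A) :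
    @IsClosed C (top σ K) (Z σ K b) := by
  letI := top σ K
  rw [← isOpen_compl_iff]
  exact isOpen_generateFrom_of_mem ⟨b, rfl⟩

theorem noeth [IsNoetherian ℤ A] (σ : C →* AddMonoid.End A) (K : AddSubgroup A) :
    @NoetherianSpace C (top σ K) := by
  letI := top σ K
  rw [noetherianSpace_iff_opens]
  intro U
  refine isCompact_generateFrom (S := {U | ∃ b, U = (Z σ K b)ᶜ}) rfl ?_
  intro P hP hU
  classical
  let T : Set A := {b | (Z σ K b)ᶜ ∈ P}
  have hfg : (Submodule.span ℤ T).FG := IsNoetherian.noetherian _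
  obtain ⟨t, ht, hsp⟩ := (Submodule.fg_span_iff_fg_span_finset_subset T).1 hfg
  refine ⟨(fun b => (Z σ K b)ᶜ) '' (t : Set A), ?_, (t.finite_toSet.image _), ?_⟩
  · rintro _ ⟨b, hb, rfl⟩
    exact ht hb
  · intro x hx
    obtain ⟨V, hV, hxV⟩ := hU hx
    obtain ⟨b, rfl⟩ := hP hV
    by_contra hcon
    apply hxV
    have hb : b ∈ Submodule.span ℤ (t : Set A) := by
      rw [← hsp]; exact Submodule.subset_span hV
    have : ∀ a ∈ Submodule.span ℤ (t : Set A), σ x a ∈ K := by
      intro a ha
      induction ha using Submodule.span_induction with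
      | mem a ha =>
        by_contra h
        exact hcon ⟨_, ⟨a, ha, rfl⟩, h⟩
      | zero => rw [map_zero]; exact K.zero_mem
      | add a a' _ _ h h' => rw [map_add]; exact K.add_mem h h'
      | smul n a _ h => rw [map_zsmul]; exact K.zsmul_mem h n
    exact this b hb

theorem cont (σ : C →* AddMonoid.End A) (K : AddSubgroup A) (y : C) :
    @Continuous C C (top σ K) (top σ K) (fun x => x * y) := by
  letI := top σ K
  refine continuous_generateFrom_iff.2 ?_
  rintro _ ⟨b, rfl⟩
  have : (fun x => x * y) ⁻¹' (Z σ K b)ᶜ = (Z σ K (σ y b))ᶜ := by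
    ext x
    simp only [Z, mem_preimage, mem_compl_iff, mem_setOf_eq, map_mul]
    rfl
  rw [this]
  exact isOpen_generateFrom_of_mem ⟨_, rfl⟩

/-- If every element of `C` moves one of finitely many elements of `A` into `K`, then a subgroup
of finite index fixes a subgroup `B` that contains one of them and is moved into `K`. -/
theorem cover [IsNoetherian ℤ A] (σ : C →* AddMonoid.End A) (K : AddSubgroup A) (s : Finset A)
    (h : ∀ x : C, ∃ b ∈ s, σ x b ∈ K) :
    ∃ C1 : Subgroup C, C1.FiniteIndex ∧ ∃ B : AddSubgroup A, (∃ b ∈ s, b ∈ B) ∧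
      (∀ x ∈ C1, ∀ a ∈ B, σ x a ∈ B) ∧ ∃ y : C, ∀ a ∈ B, σ y a ∈ K := by
  classical
  letI := top σ K
  haveI := noeth σ K
  let hom : C → C ≃ₜ C := fun y =>
    { toEquiv := Equiv.mulRight y
      continuous_toFun := cont σ K y
      continuous_invFun := cont σ K y⁻¹ }
  let W : Set C := irreducibleComponent (1 : C)
  have hW : W ∈ irreducibleComponents C := irreducibleComponent_mem_irreducibleComponents 1
  have hfin : (irreducibleComponents C).Finite := NoetherianSpace.finite_irreducibleComponents
  have hpre : ∀ y : C, (fun x => x * y) ⁻¹' W ∈ irreducibleComponents C := by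
    intro y
    refine ⟨?_, ?_⟩
    · have := hW.1.image (fun x => x * y⁻¹) (cont σ K y⁻¹).continuousOn
      convert this using 1
      ext x
      constructor
      · intro hx; exact ⟨x * y, hx, by simp⟩
      · rintro ⟨z, hz, rfl⟩; simpa using hz
    · intro V hV hle
      have h1 : IsIrreducible ((fun x => x * y) '' V) := hV.image _ (cont σ K y).continuousOn
      have h2 : W ⊆ (fun x => x * y) '' V := by
        intro w hw
        exact ⟨w * y⁻¹, hle (by simpa using hw), by simp⟩
      have h3 := hW.2 h1 h2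
      intro v hv
      exact h3 ⟨v, hv, rfl⟩
  let C1 : Subgroup C :=
    { carrier := {y | ∀ x, x * y ∈ W ↔ x ∈ W}
      one_mem' := by intro x; simp
      mul_mem' := by
        intro a b ha hb x
        rw [← mul_assoc, hb, ha]
      inv_mem' := by
        intro a ha x
        have := ha (x * a⁻¹)
        simpa using this.symm }
  have hidx : C1.FiniteIndex := by
    haveI : Finite (irreducibleComponents C) := hfin
    haveI : Finite (C ⧸ C1) := by
      refine Finite.of_injective
        (fun q : C ⧸ C1 => (⟨(fun x => x * q.out) ⁻¹' W, hpre _⟩ : irreducibleComponents C)) ?_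
      intro q q' hq
      have hq2 : (fun x => x * q.out) ⁻¹' W = (fun x => x * q'.out) ⁻¹' W :=
        congrArg Subtype.val hq
      rw [← q.out_eq', ← q'.out_eq', QuotientGroup.eq]
      intro x
      have := Set.ext_iff.1 hq2 (x * q.out⁻¹)
      simp only [mem_preimage, inv_mul_cancel_right] at this
      rw [← mul_assoc]
      exact this.symm
    exact Subgroup.finiteIndex_of_finite_quotient
  have hsub : ∃ b ∈ s, W ⊆ Z σ K b := by
    have := (isIrreducible_iff_sUnion_isClosed.1 hW.1) (s.image (Z σ K)) (by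
      intro z hz
      obtain ⟨b, _, rfl⟩ := Finset.mem_image.1 hz
      exact closed_Z σ K b) (by
      intro x _
      obtain ⟨b, hb, hx⟩ := h x
      exact ⟨Z σ K b, by simpa using ⟨b, hb, rfl⟩, hx⟩)
    obtain ⟨z, hz, hWz⟩ := this
    obtain ⟨b, hb, rfl⟩ := Finset.mem_image.1 hz
    exact ⟨b, hb, hWz⟩
  let B : AddSubgroup A :=
    { carrier := {a | ∀ x ∈ W, σ x a ∈ K}
      zero_mem' := by intro x _; rw [map_zero]; exact K.zero_mem
      add_mem' := by intro a b ha hb x hx; rw [map_add]; exact K.add_mem (ha x hx) (hb x hx)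
      neg_mem' := by intro a ha x hx; rw [map_neg]; exact K.neg_mem (ha x hx) }
  obtain ⟨b, hb, hWb⟩ := hsub
  refine ⟨C1, hidx, B, ⟨b, hb, fun x hx => hWb hx⟩, ?_, 1, fun a ha => ha 1 mem_irreducibleComponent⟩
  intro y hy a ha x hx
  have := ha (x * y) ((hy x).2 hx)
  rw [map_mul] at this
  exact this

end Pool.Agent.Lib.MP_721660_al.Cover
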