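import Pool.Agent.Lib.MP_721660_al.CD.AllMeta

set_option autoImplicit false

namespace Pool.Agent.Lib.MP_721660_al.MetabelianChains

theorem result : ∀ (G Q : Type) [Group G] [Group Q] (f : G →* Q), Group.FG G →
    Function.Surjective f → (∀ H : Subgroup Q, H.FG) →
    (∀ x ∈ commutator Q, ∀ y ∈ commutator Q, x * y = y * x) →
    (∀ x ∈ f.ker, ∀ y ∈ f.ker, x * y = y * x) →
    ∃ m : ℕ, ∀ (k : ℕ) (s : ℕ → Set G),
      (∀ i < k, Subgroup.centralizer (s i) < Subgroup.centralizer (s (i + 1))) → k ≤ m :=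
  fun G Q _ _ f hG hf hm h2 hA => Pool.Agent.Cdim.bdd_meta G Q f hG hf hA hm h2

end Pool.Agent.Lib.MP_721660_al.MetabelianChains
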